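import Mathlib

/-!
# Extended Fermat primes are generalised Fermat primes, and the exponents are multiples of `2 ^ m`
-/

set_option autoImplicit false

namespace Pool.Agent.Results.MP_1d1bb8_nt.ExponentsAndPowers

open Finset

/-- The primes `P 0 = 2 < P 1 < ... < P l` and the exponents `a 0, ..., a (l - 1)` show that `P l` is an
extended Fermat prime of level `l`: all `P i`, `i ≤ l`, are prime, `P i - 1` is the product of the
`P j ^ a j`, `j < i`, and `a j` is positive for `j < l`. (`P i` and `a i` are the `p_(i+1)` and `a_(i+1)` of the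
problem for `i < l`, and `P l` is its `p`.) -/
def IsChain (l : ℕ) (P a : ℕ → ℕ) : Prop :=
  (∀ i ≤ l, (P i).Prime ∧ P i = (∏ j ∈ range i, P j ^ a j) + 1) ∧ ∀ j < l, 0 < a j

/-- `F_j` divides `(p - 1) p ^ k + 1` if `p` is `2` modulo `F_j` and `2 ^ j` is the exact power of `2` in `k`. -/
lemma dvd_of_odd {q p j t : ℕ} (hq : q = 2 ^ 2 ^ j + 1) (hp : p ≡ 2 [MOD q]) (hp0 : 0 < p) (ht : Odd t) :
    q ∣ (p - 1) * p ^ (2 ^ j * t) + 1 := by
  have h1 : p - 1 ≡ 1 [MOD q] := by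
    have : p - 1 + 1 ≡ 1 + 1 [MOD q] := by
      rw [Nat.sub_add_cancel hp0]; exact hp
    exact Nat.ModEq.add_right_cancel' 1 this
  have h2 : (p - 1) * p ^ (2 ^ j * t) + 1 ≡ 1 * 2 ^ (2 ^ j * t) + 1 [MOD q] :=
    (h1.mul (hp.pow _)).add_right 1
  rw [Nat.dvd_iff_mod_eq_zero]
  have h3 : q ∣ 1 * 2 ^ (2 ^ j * t) + 1 := by
    rw [one_mul, pow_mul, hq]
    have := Odd.nat_add_dvd_pow_add_pow (2 ^ 2 ^ j) 1 ht
    simpa using this
  rw [h2, Nat.mod_eq_zero_of_dvd h3]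

lemma key {p m k : ℕ} (hp2 : 2 < p) (hp : ∀ j < m, p ≡ 2 [MOD 2 ^ 2 ^ j + 1]) (hk : k ≠ 0)
    (hprime : ((p - 1) * p ^ k + 1).Prime) : 2 ^ m ∣ k := by
  obtain ⟨j, t, ht, rfl⟩ := Nat.exists_eq_two_pow_mul_odd hk
  by_cases hj : m ≤ j
  · exact (pow_dvd_pow 2 hj).mul_right t
  · exfalso
    push Not at hj
    have h1 := dvd_of_odd rfl (hp j hj) (by omega) ht
    have h2 : 2 ^ 2 ^ j + 1 ≤ p - 2 := by
      apply Nat.le_of_dvd (by omega)
      exact (Nat.modEq_iff_dvd' (by omega)).1 (hp j hj).symm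
    rcases (Nat.dvd_prime hprime).1 h1 with h3 | h3
    · have : 0 < 2 ^ 2 ^ j := by positivity
      omega
    · have h4 : p - 1 ≤ (p - 1) * p ^ (2 ^ j * t) := Nat.le_mul_of_pos_right _ (by positivity)
      omega

lemma two_pow_mod {m j n : ℕ} (hj : j < m) (hn : 2 ^ m ∣ n) : 2 ^ n ≡ 1 [MOD 2 ^ 2 ^ j + 1] := by
  obtain ⟨c, rfl⟩ := hn
  obtain ⟨d, rfl⟩ := Nat.exists_eq_add_of_lt hj
  have h1 : (2 ^ 2 ^ j) ^ 2 ≡ 1 [MOD 2 ^ 2 ^ j + 1] := by
    have h0 : 1 ≤ 2 ^ 2 ^ j := Nat.one_le_two_pow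
    refine ((Nat.modEq_iff_dvd' (by nlinarith)).2 ?_).symm
    refine ⟨2 ^ 2 ^ j - 1, ?_⟩
    have := Nat.sq_sub_sq (2 ^ 2 ^ j) 1
    simpa using this
  have h2 : 2 ^ (2 ^ (j + d + 1) * c) = ((2 ^ 2 ^ j) ^ 2) ^ (2 ^ d * c) := by
    rw [← pow_mul, ← pow_mul]
    congr 1
    ring
  rw [h2]
  simpa using h1.pow (2 ^ d * c)

lemma main {l : ℕ} {P a : ℕ → ℕ} (h : IsChain l P a) {m : ℕ} (hm : a 0 = 2 ^ m) :
    ∀ i, 1 ≤ i → i ≤ l → 2 < P i ∧ ∀ j < m, P i ≡ 2 [MOD 2 ^ 2 ^ j + 1] := by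
  have hP0 : P 0 = 2 := by
    have := (h.1 0 (Nat.zero_le _)).2
    simpa using this
  intro i hi
  induction i, hi using Nat.le_induction with
  | base =>
    intro hl
    have h1 : P 1 = 2 ^ 2 ^ m + 1 := by
      have := (h.1 1 hl).2
      simpa [hP0, hm] using this
    refine ⟨?_, fun j hj => ?_⟩
    · have : 2 ^ 1 ≤ 2 ^ 2 ^ m := Nat.pow_le_pow_right (by norm_num) Nat.one_le_two_pow
      omega
    · rw [h1]
      exact (two_pow_mod hj dvd_rfl).add_right 1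
  | succ i hi ih =>
    intro hl
    obtain ⟨h2, h3⟩ := ih (by omega)
    have e1 := (h.1 i (by omega)).2
    have e2 := (h.1 (i + 1) hl).2
    rw [prod_range_succ] at e2
    have e3 : P (i + 1) = (P i - 1) * P i ^ a i + 1 := by
      rw [e2]
      congr 2
      omega
    have hai : 0 < a i := h.2 i (by omega)
    have h4 : 2 ^ m ∣ a i := key h2 h3 hai.ne' (by rw [← e3]; exact (h.1 (i + 1) hl).1)
    refine ⟨?_, fun j hj => ?_⟩
    · rw [e3]
      have h5 : P i - 1 ≤ (P i - 1) * P i ^ a i := Nat.le_mul_of_pos_right _ (by positivity)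
      have h6 : P i ^ 1 ≤ P i ^ a i := Nat.pow_le_pow_right (by omega) hai
      nlinarith
    · rw [e3]
      have h5 : P i - 1 ≡ 1 [MOD 2 ^ 2 ^ j + 1] := by
        have : P i - 1 + 1 ≡ 1 + 1 [MOD 2 ^ 2 ^ j + 1] := by
          rw [Nat.sub_add_cancel (by omega)]; exact h3 j hj
        exact Nat.ModEq.add_right_cancel' 1 this
      have h6 : P i ^ a i ≡ 1 [MOD 2 ^ 2 ^ j + 1] := ((h3 j hj).pow _).trans (two_pow_mod hj h4)
      have := (h5.mul h6).add_right 1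
      simpa using this

/-- Let `p = P l` be an extended Fermat prime of level `l ≥ 1`. Then the exponent `a 0` of `2` in `p - 1` is a
power `2 ^ m` (so `P 1` is the Fermat number `F_m`), all the exponents are multiples of `2 ^ m`, so
`p = N ^ (2 ^ m) + 1` for some `N`, the primes `P 1, ..., P l` are `2` modulo `F_j` for all `j < m`, and
`(p - 1) p ^ k + 1` can be prime, for `k ≥ 1`, only if `2 ^ m` divides `k` and `k = 1` or `k` is not `1`
modulo `6`. -/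
theorem result (l : ℕ) (P a : ℕ → ℕ) (h : IsChain l P a) (hl : 1 ≤ l) :
    ∃ m : ℕ, a 0 = 2 ^ m ∧ P 1 = 2 ^ 2 ^ m + 1 ∧ (∀ i < l, 2 ^ m ∣ a i) ∧ (∃ N : ℕ, P l = N ^ 2 ^ m + 1) ∧
      (∀ i, 1 ≤ i → i ≤ l → ∀ j < m, P i ≡ 2 [MOD 2 ^ 2 ^ j + 1]) ∧
      ∀ k : ℕ, 1 ≤ k → ((P l - 1) * P l ^ k + 1).Prime → 2 ^ m ∣ k ∧ (k = 1 ∨ k % 6 ≠ 1) := by
  have hP0 : P 0 = 2 := by
    have := (h.1 0 (Nat.zero_le _)).2
    simpa using this
  have h1 : P 1 = 2 ^ a 0 + 1 := by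
    have := (h.1 1 hl).2
    simpa [hP0] using this
  obtain ⟨m, hm⟩ : ∃ m, a 0 = 2 ^ m :=
    Nat.pow_of_pow_add_prime (a := 2) (by norm_num) (h.2 0 (by omega)).ne' (h1 ▸ (h.1 1 hl).1)
  have hdvd : ∀ i < l, 2 ^ m ∣ a i := by
    intro i hi
    rcases Nat.eq_zero_or_pos i with h0 | h0
    · rw [h0, hm]
    · obtain ⟨h2, h3⟩ := main h hm i h0 hi.le
      have e1 := (h.1 i hi.le).2
      have e2 := (h.1 (i + 1) hi).2
      rw [prod_range_succ] at e2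
      have e3 : P (i + 1) = (P i - 1) * P i ^ a i + 1 := by
        rw [e2]
        congr 2
        omega
      exact key h2 h3 (h.2 i hi).ne' (by rw [← e3]; exact (h.1 (i + 1) hi).1)
  refine ⟨m, hm, by rw [h1, hm], hdvd, ⟨∏ j ∈ range l, P j ^ (a j / 2 ^ m), ?_⟩,
    fun i hi hil => (main h hm i hi hil).2, ?_⟩
  · rw [(h.1 l le_rfl).2, ← prod_pow]
    congr 1
    refine prod_congr rfl fun j hj => ?_
    rw [← pow_mul, Nat.div_mul_cancel (hdvd j (mem_range.1 hj))]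
  · intro k hk hprime
    obtain ⟨h2, h3⟩ := main h hm l hl le_rfl
    refine ⟨key h2 h3 (by omega) hprime, ?_⟩
    by_contra hcon
    push Not at hcon
    obtain ⟨hk1, hk6⟩ := hcon
    obtain ⟨t, rfl⟩ : ∃ t, k = 6 * t + 1 := ⟨k / 6, by omega⟩
    have ht : 1 ≤ t := by omega
    obtain ⟨x, hx⟩ : ∃ x, P l = x + 1 := ⟨P l - 1, by omega⟩
    have hx2 : 2 ≤ x := by omega
    rw [hx] at hprime
    -- `x ^ 2 + x + 1` (with `P l = x + 1`) divides the number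
    have hd : x ^ 2 + x + 1 ∣ (x + 1 - 1) * (x + 1) ^ (6 * t + 1) + 1 := by
      rw [Nat.add_sub_cancel]
      have hc : (x + 1) ^ 6 ≡ 1 [MOD x ^ 2 + x + 1] := by
        refine ((Nat.modEq_iff_dvd' (Nat.one_le_pow _ _ (by omega))).2 ?_).symm
        refine ⟨x ^ 4 + 5 * x ^ 3 + 9 * x ^ 2 + 6 * x, ?_⟩
        have : (x + 1) ^ 6 = (x ^ 2 + x + 1) * (x ^ 4 + 5 * x ^ 3 + 9 * x ^ 2 + 6 * x) + 1 := by ring
        omega
      have h5 : x * (x + 1) ^ (6 * t + 1) + 1 ≡ x * (1 ^ t * (x + 1)) + 1 [MOD x ^ 2 + x + 1] := by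
        have e : (x + 1) ^ (6 * t + 1) = ((x + 1) ^ 6) ^ t * (x + 1) := by rw [pow_succ, pow_mul]
        rw [e]
        exact (((hc.pow t).mul_right _).mul_left _).add_right 1
      rw [Nat.dvd_iff_mod_eq_zero, h5]
      apply Nat.mod_eq_zero_of_dvd
      exact ⟨1, by ring⟩
    rcases (Nat.dvd_prime hprime).1 hd with h5 | h5
    · nlinarith
    · rw [Nat.add_sub_cancel] at h5
      have h6 : (x + 1) ^ 2 ≤ (x + 1) ^ (6 * t + 1) := Nat.pow_le_pow_right (by omega) (by omega)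
      nlinarith [Nat.mul_le_mul_left x h6]

end Pool.Agent.Results.MP_1d1bb8_nt.ExponentsAndPowers
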